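import Mathlib

namespace Pool.Agent.Results.MP_06d6be_co.LineOrders

open Set

/-- Euclidean `d`-space. -/
abbrev E (d : ℕ) : Type := EuclideanSpace ℝ (Fin d)

/-- The order in which the oriented line `t ↦ x + t • v` meets the members of the family `F`:
`ord F x v i j` says that `i ≠ j` and that `F i` is met before `F j`. -/
def ord {ι : Type*} {d : ℕ} (F : ι → Set (E d)) (x v : E d) (i j : ι) : Prop :=
  i ≠ j ∧ ∃ a b : ℝ, a < b ∧ x + a • v ∈ F i ∧ x + b • v ∈ F j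

/-- The geometric permutations of `F`: the unordered pairs formed by the order in which an
oriented line transversal meets the members of `F`, and the reverse of this order. -/
def geomPerms {ι : Type*} {d : ℕ} (F : ι → Set (E d)) : Set (Sym2 (ι → ι → Prop)) :=
  {p | ∃ x v : E d, v ≠ 0 ∧ (∀ i, ∃ a : ℝ, x + a • v ∈ F i) ∧
    p = s(ord F x v, fun i j => ord F x v j i)}

/-- `g d n`: the largest number of geometric permutations of a family of `n` pairwise disjoint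
compact convex sets in `ℝ^d`. -/
noncomputable def g (d n : ℕ) : ℕ :=
  sSup {N | ∃ F : Fin n → Set (E d), (∀ i, IsCompact (F i) ∧ Convex ℝ (F i)) ∧
    (∀ i j, i ≠ j → Disjoint (F i) (F j)) ∧ N = (geomPerms F).ncard}

/-! ### The order is well defined -/

lemma mem_between {d : ℕ} {A : Set (E d)} (hA : Convex ℝ A) {x v : E d} {a b t : ℝ}
    (ha : x + a • v ∈ A) (hb : x + b • v ∈ A) (h1 : a ≤ t) (h2 : t ≤ b) :
    x + t • v ∈ A := by
  rcases eq_or_lt_of_le (h1.trans h2) with hab | hab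
  · have : t = a := le_antisymm (hab ▸ h2) h1
    rw [this]; exact ha
  · have h := hA ha hb (a := (b - t) / (b - a)) (b := (t - a) / (b - a))
      (div_nonneg (by linarith) (by linarith)) (div_nonneg (by linarith) (by linarith))
      (by field_simp; ring)
    have e : ((b - t) / (b - a)) • (x + a • v) + ((t - a) / (b - a)) • (x + b • v) =
        x + t • v := by
      have hne : b - a ≠ 0 := by linarith
      have e1 : (b - t) / (b - a) = 1 - (t - a) / (b - a) := by field_simp; ring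
      have e2 : t = a + (t - a) / (b - a) * (b - a) := by field_simp; ring
      obtain ⟨r, hr⟩ : ∃ r, r = (t - a) / (b - a) := ⟨_, rfl⟩
      rw [← hr] at e1 e2 ⊢
      rw [e1, e2]
      module
    rw [e] at h
    exact h

/-- For disjoint convex sets the order relation is asymmetric. -/
lemma ord_asymm {ι : Type*} {d : ℕ} {F : ι → Set (E d)} (hF : ∀ i, Convex ℝ (F i))
    (hdis : ∀ i j, i ≠ j → Disjoint (F i) (F j)) {x v : E d} {i j : ι}
    (h : ord F x v i j) : ¬ ord F x v j i := by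
  obtain ⟨hij, a, b, hab, ha, hb⟩ := h
  rintro ⟨-, b', a', hba, hb', ha'⟩
  have hd := Set.disjoint_left.mp (hdis i j hij)
  rcases le_or_gt b a' with h1 | h1
  · exact hd (mem_between (hF i) ha ha' hab.le h1) hb
  · exact hd ha' (mem_between (hF j) hb' hb hba.le h1.le)

/-- For disjoint convex sets all of which are met, the order relation is total. -/
lemma ord_total {ι : Type*} {d : ℕ} {F : ι → Set (E d)}
    (hdis : ∀ i j, i ≠ j → Disjoint (F i) (F j)) {x v : E d}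
    (hm : ∀ i, ∃ a : ℝ, x + a • v ∈ F i) {i j : ι} (hij : i ≠ j) :
    ord F x v i j ∨ ord F x v j i := by
  obtain ⟨a, ha⟩ := hm i
  obtain ⟨b, hb⟩ := hm j
  rcases lt_trichotomy a b with h | h | h
  · exact Or.inl ⟨hij, a, b, h, ha, hb⟩
  · subst h
    exact absurd hb (Set.disjoint_left.mp (hdis i j hij) ha)
  · exact Or.inr ⟨hij.symm, b, a, h, hb, ha⟩

/-- For disjoint convex sets the order relation is transitive. -/
lemma ord_trans {ι : Type*} {d : ℕ} {F : ι → Set (E d)} (hF : ∀ i, Convex ℝ (F i))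
    (hdis : ∀ i j, i ≠ j → Disjoint (F i) (F j)) {x v : E d} {i j k : ι}
    (h1 : ord F x v i j) (h2 : ord F x v j k) : ord F x v i k := by
  have hik : i ≠ k := by
    rintro rfl
    exact ord_asymm hF hdis h1 h2
  obtain ⟨hij, a, b, hab, ha, hb⟩ := h1
  obtain ⟨hjk, b', c, hbc, hb', hc⟩ := h2
  refine ⟨hik, a, c, ?_, ha, hc⟩
  by_contra h
  push Not at h
  have : c < b := lt_of_le_of_lt h hab
  exact Set.disjoint_left.mp (hdis j k hjk) (mem_between (hF j) hb' hb hbc.le this.le) hc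

/-! ### Lower bounds for `g` -/

lemma bddAbove_g (d n : ℕ) : BddAbove {N | ∃ F : Fin n → Set (E d),
    (∀ i, IsCompact (F i) ∧ Convex ℝ (F i)) ∧
    (∀ i j, i ≠ j → Disjoint (F i) (F j)) ∧ N = (geomPerms F).ncard} := by
  refine ⟨Nat.card (Sym2 (Fin n → Fin n → Prop)), ?_⟩
  rintro N ⟨F, -, -, rfl⟩
  rw [← Set.ncard_univ]
  exact Set.ncard_le_ncard (Set.subset_univ _) Set.finite_univ

lemma card_le_g {d n : ℕ} (F : Fin n → Set (E d))
    (hF : ∀ i, IsCompact (F i) ∧ Convex ℝ (F i))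
    (hdis : ∀ i j, i ≠ j → Disjoint (F i) (F j)) {κ : Type*} [Fintype κ]
    (x v : κ → E d) (hv : ∀ k, v k ≠ 0) (hit : ∀ k i, ∃ a : ℝ, x k + a • v k ∈ F i)
    (i0 i1 : Fin n) (h01 : ∀ k, ord F (x k) (v k) i0 i1)
    (hinj : ∀ k k', ord F (x k) (v k) = ord F (x k') (v k') → k = k') :
    Fintype.card κ ≤ g d n := by
  have h1 : Fintype.card κ ≤ (geomPerms F).ncard := by
    have hinj' : Function.Injective
        (fun k => s(ord F (x k) (v k), fun i j => ord F (x k) (v k) j i)) := by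
      intro k k' h
      simp only [Sym2.eq_iff] at h
      rcases h with ⟨h, -⟩ | ⟨h, -⟩
      · exact hinj k k' h
      · exfalso
        have h2 := h01 k
        rw [h] at h2
        exact ord_asymm (fun i => (hF i).2) hdis (h01 k') h2
    rw [← Nat.card_eq_fintype_card, ← Set.ncard_univ,
      ← Set.ncard_image_of_injective Set.univ hinj']
    apply Set.ncard_le_ncard _ (Set.toFinite _)
    rintro _ ⟨k, -, rfl⟩
    exact ⟨x k, v k, hv k, hit k, rfl⟩
  exact h1.trans (le_csSup (bddAbove_g d n) ⟨F, hF, hdis, rfl⟩)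

/-! ### Closed convex sets from affine conditions -/

/-- Continuous affine functions. -/
structure Aff {d : ℕ} (f : E d → ℝ) : Prop where
  cont : Continuous f
  comb : ∀ x y : E d, ∀ u v : ℝ, u + v = 1 → f (u • x + v • y) = u * f x + v * f y

/-- Closed and convex. -/
def Good {d : ℕ} (S : Set (E d)) : Prop := IsClosed S ∧ Convex ℝ S

lemma aff_const {d : ℕ} (c : ℝ) : Aff (fun _ : E d => c) :=
  ⟨continuous_const, fun _ _ u v h => by
    have : v = 1 - u := by linarith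
    subst this; ring⟩

lemma Aff.add {d : ℕ} {f g : E d → ℝ} (hf : Aff f) (hg : Aff g) : Aff (fun x => f x + g x) :=
  ⟨hf.cont.add hg.cont, fun x y u v h => by rw [hf.comb x y u v h, hg.comb x y u v h]; ring⟩

lemma Aff.sub {d : ℕ} {f g : E d → ℝ} (hf : Aff f) (hg : Aff g) : Aff (fun x => f x - g x) :=
  ⟨hf.cont.sub hg.cont, fun x y u v h => by rw [hf.comb x y u v h, hg.comb x y u v h]; ring⟩

lemma Aff.mul {d : ℕ} {f : E d → ℝ} (c : ℝ) (hf : Aff f) : Aff (fun x => c * f x) :=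
  ⟨continuous_const.mul hf.cont, fun x y u v h => by rw [hf.comb x y u v h]; ring⟩

lemma Aff.neg {d : ℕ} {f : E d → ℝ} (hf : Aff f) : Aff (fun x => - f x) :=
  ⟨hf.cont.neg, fun x y u v h => by rw [hf.comb x y u v h]; ring⟩

lemma good_le {d : ℕ} {f g : E d → ℝ} (hf : Aff f) (hg : Aff g) : Good {x | f x ≤ g x} := by
  refine ⟨isClosed_le hf.cont hg.cont, ?_⟩
  intro x hx y hy u v hu hv huv
  have hx' : f x ≤ g x := hx
  have hy' : f y ≤ g y := hy
  show f (u • x + v • y) ≤ g (u • x + v • y)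
  rw [hf.comb x y u v huv, hg.comb x y u v huv]
  exact add_le_add (mul_le_mul_of_nonneg_left hx' hu) (mul_le_mul_of_nonneg_left hy' hv)

lemma good_eq {d : ℕ} {f g : E d → ℝ} (hf : Aff f) (hg : Aff g) : Good {x | f x = g x} := by
  refine ⟨isClosed_eq hf.cont hg.cont, ?_⟩
  intro x hx y hy u v hu hv huv
  have hx' : f x = g x := hx
  have hy' : f y = g y := hy
  show f (u • x + v • y) = g (u • x + v • y)
  rw [hf.comb x y u v huv, hg.comb x y u v huv, hx', hy']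

lemma good_and {d : ℕ} {p q : E d → Prop} (hp : Good {x | p x}) (hq : Good {x | q x}) :
    Good {x | p x ∧ q x} := ⟨hp.1.inter hq.1, hp.2.inter hq.2⟩

lemma good_forall {d : ℕ} {ι : Sort*} {p : ι → E d → Prop} (hp : ∀ i, Good {x | p i x}) :
    Good {x | ∀ i, p i x} := by
  have e : {x | ∀ i, p i x} = ⋂ i, {x | p i x} := by ext x; simp
  rw [e]
  exact ⟨isClosed_iInter fun i => (hp i).1, convex_iInter fun i => (hp i).2⟩

lemma good_abs {d : ℕ} {f : E d → ℝ} (hf : Aff f) (c : ℝ) : Good {x | |f x| ≤ c} := by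
  have e : {x | |f x| ≤ c} = {x | -c ≤ f x ∧ f x ≤ c} := by
    ext x; simp only [Set.mem_ofPred_eq, abs_le]
  rw [e]
  exact good_and (good_le (aff_const _) hf) (good_le hf (aff_const _))

/-- Coordinates with natural number index. -/
noncomputable def cd {D : ℕ} (x : E (D + 3)) (q : ℕ) : ℝ :=
  if h : q < D + 3 then x ⟨q, h⟩ else 0

lemma aff_cd {D : ℕ} (q : ℕ) : Aff (fun x : E (D + 3) => cd x q) := by
  by_cases h : q < D + 3
  · refine ⟨?_, ?_⟩
    · simp only [cd, h, dite_true]; fun_prop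
    · intro x y u v _
      simp only [cd, h, dite_true, PiLp.add_apply, PiLp.smul_apply, smul_eq_mul]
  · refine ⟨?_, ?_⟩
    · simp only [cd, h, dite_false]; fun_prop
    · intro x y u v _
      simp only [cd, h, dite_false]; ring

/-- Box. -/
def Box {D : ℕ} (M : ℝ) : Set (E (D + 3)) := {x | ∀ i, |x i| ≤ M}

lemma isCompact_Box {D : ℕ} (M : ℝ) : IsCompact (Box (D := D) M) := by
  have h : Box (D := D) M = (EuclideanSpace.equiv (Fin (D + 3)) ℝ) ⁻¹'
      (Set.Icc (fun _ => -M) (fun _ => M)) := by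
    ext x
    simp only [Box, Set.mem_ofPred_eq, Set.mem_preimage, Set.mem_Icc, Pi.le_def, abs_le]
    constructor
    · intro h; exact ⟨fun i => (h i).1, fun i => (h i).2⟩
    · intro h i; exact ⟨h.1 i, h.2 i⟩
  rw [h]
  exact (EuclideanSpace.equiv (Fin (D + 3)) ℝ).toHomeomorph.isCompact_preimage.mpr isCompact_Icc

lemma convex_Box {D : ℕ} (M : ℝ) : Convex ℝ (Box (D := D) M) := by
  intro x hx y hy u v hu hv huv i
  have h1 := abs_le.mp (hx i)
  have h2 := abs_le.mp (hy i)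
  simp only [PiLp.add_apply, PiLp.smul_apply, smul_eq_mul]
  rw [abs_le]
  have hv' : v = 1 - u := by linarith
  constructor
  · nlinarith [mul_nonneg hu (by linarith [h1.1] : (0:ℝ) ≤ x i + M),
      mul_nonneg hv (by linarith [h2.1] : (0:ℝ) ≤ y i + M)]
  · nlinarith [mul_nonneg hu (by linarith [h1.2] : (0:ℝ) ≤ M - x i),
      mul_nonneg hv (by linarith [h2.2] : (0:ℝ) ≤ M - y i)]

/-! ### Parameters -/

/-- Height bound. -/
def HH (m : ℕ) : ℝ := (m : ℝ) ^ 2 + 2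

/-- Vertical scale. -/
def BB (m : ℕ) : ℝ := 32 * HH m

/-- Horizontal scale factor. -/
def QQ (m : ℕ) : ℝ := 32000 * (HH m) ^ 4

/-- Step of the last slope. -/
noncomputable def gg (D m : ℕ) : ℝ := 1 / (1000 * ((m : ℝ) + 1) * (HH m) ^ 2 * (QQ m) ^ D)

/-- Depths of the long plates. -/
noncomputable def EE (m k : ℕ) : ℝ := HH m * (8 * (m : ℝ)) ^ (k + 1)

/-- Half-lengths of the long plates. -/
noncomputable def RR (D m k : ℕ) : ℝ := 2 * (EE m k + HH m) / gg D m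

/-- Bound for all extents in the first coordinate. -/
noncomputable def RM (D m : ℕ) : ℝ := (QQ m) ^ D * HH m + ∑ k : Fin m, RR D m k

/-- Index type: lower pieces, upper pieces, long plates, walls. -/
abbrev Idx (D m r : ℕ) : Type :=
  (Fin (D + 1) × Fin m) ⊕ (Fin (D + 1) × Fin m) ⊕ Fin m ⊕ Fin r

/-- Truncation in the later coordinates. -/
def trunc {D : ℕ} (m a : ℕ) (x : E (D + 3)) : Prop :=
  ∀ q, a + 2 ≤ q → q < D + 3 → -1 ≤ cd x q ∧ cd x q ≤ HH m

/-- The family. -/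
noncomputable def G (D m r : ℕ) : Idx D m r → Set (E (D + 3))
  | Sum.inl (a, j) => {x | cd x 0 = (QQ m) ^ (a : ℕ) * (((j : ℕ) : ℝ) + 1) ∧
      cd x (a + 1) ≤ BB m * ((((j : ℕ) : ℝ) + 1) * cd x (a + 2) + 1 / 16) ∧ trunc m a x}
  | Sum.inr (Sum.inl (a, i)) => {x | cd x 0 =
      (QQ m) ^ (a : ℕ) * (cd x (a + 2) - (m : ℝ) * ((i : ℕ) : ℝ)) ∧
      (∀ w : ℕ, w ≤ m → BB m * (((m : ℝ) * ((i : ℕ) : ℝ) + 2 * (w : ℝ)) * cd x (a + 2) -
        ((m : ℝ) * ((i : ℕ) : ℝ) + (w : ℝ)) ^ 2 + 1 / 8) ≤ cd x (a + 1)) ∧ trunc m a x}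
  | Sum.inr (Sum.inr (Sum.inl k)) => {x | cd x (D + 2) =
      -EE m k + (((k : ℕ) : ℝ) + 1) * gg D m * cd x 0 ∧ |cd x 0| ≤ RR D m k}
  | Sum.inr (Sum.inr (Sum.inr q)) => {x | cd x 0 = RM D m + 1 + ((q : ℕ) : ℝ)}

lemma good_trunc (D m a : ℕ) : Good {x : E (D + 3) | trunc m a x} := by
  unfold trunc
  apply good_forall
  intro q
  apply good_forall
  intro _
  apply good_forall
  intro _
  exact good_and (good_le (aff_const _) (aff_cd q)) (good_le (aff_cd q) (aff_const _))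

lemma good_G (D m r : ℕ) (e : Idx D m r) : Good (G D m r e) := by
  rcases e with ⟨a, j⟩ | ⟨a, i⟩ | k | q
  · exact good_and (good_eq (aff_cd 0) (aff_const _)) (good_and
      (good_le (aff_cd _) (((((aff_cd _).mul _).add (aff_const _))).mul _)) (good_trunc D m a))
  · refine good_and (good_eq (aff_cd 0) (((aff_cd _).sub (aff_const _)).mul _)) (good_and
      ?_ (good_trunc D m a))
    apply good_forall
    intro w
    apply good_forall
    intro _
    exact good_le (((((aff_cd _).mul _).sub (aff_const _)).add (aff_const _)).mul _) (aff_cd _)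
  · exact good_and (good_eq (aff_cd _) ((aff_const _).add ((aff_cd 0).mul _)))
      (good_abs (aff_cd 0) _)
  · exact good_eq (aff_cd 0) (aff_const _)

/-! ### Facts on the parameters -/

lemma HH_pos (m : ℕ) : 0 < HH m := by unfold HH; positivity

lemma HH_ge (m : ℕ) : 2 ≤ HH m := by unfold HH; nlinarith [sq_nonneg (m:ℝ)]

lemma m_le_HH (m : ℕ) : (m : ℝ) + 1 ≤ HH m := by
  unfold HH; nlinarith [sq_nonneg ((m:ℝ) - 1)]

lemma msq_le_HH (m : ℕ) : (m : ℝ) ^ 2 + 2 = HH m := rfl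

lemma QQ_ge (m : ℕ) : 32000 * HH m ≤ QQ m := by
  have h := HH_ge m
  unfold QQ
  have h3 : (1:ℝ) ≤ (HH m) ^ 3 := one_le_pow₀ (by linarith)
  nlinarith

lemma QQ_pos (m : ℕ) : 0 < QQ m := by
  have := QQ_ge m
  have := HH_pos m
  linarith

lemma one_le_QQ (m : ℕ) : 1 ≤ QQ m := by
  have := QQ_ge m
  have := HH_ge m
  linarith

lemma gg_pos (D m : ℕ) : 0 < gg D m := by
  have h1 := HH_pos m
  have h2 := QQ_pos m
  unfold gg; positivity

/-- small slopes -/
lemma slope_le {D m a : ℕ} (ha : a ≤ D) {s : ℝ} (hs0 : 0 ≤ s)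
    (hs : s ≤ ((m : ℝ) + 1) * gg D m) :
    s * (QQ m) ^ a ≤ 1 / (1000 * (HH m) ^ 2) := by
  have h := HH_pos m
  have hQ := QQ_pos m
  have hm : (0:ℝ) < (m : ℝ) + 1 := by positivity
  have h1 : (QQ m) ^ a ≤ (QQ m) ^ D := pow_le_pow_right₀ (one_le_QQ m) ha
  calc s * (QQ m) ^ a ≤ s * (QQ m) ^ D := mul_le_mul_of_nonneg_left h1 hs0
    _ ≤ (((m : ℝ) + 1) * gg D m) * (QQ m) ^ D :=
        mul_le_mul_of_nonneg_right hs (by positivity)
    _ = 1 / (1000 * (HH m) ^ 2) := by unfold gg; field_simp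

lemma EE_ge {m : ℕ} (hm : 1 ≤ m) (k : ℕ) : 8 * HH m ≤ EE m k := by
  have h := HH_pos m
  have hm1 : (1:ℝ) ≤ m := by exact_mod_cast hm
  have h8 : (1:ℝ) ≤ 8 * (m:ℝ) := by linarith
  have h2 : 8 * (m:ℝ) ≤ (8 * (m : ℝ)) ^ (k + 1) := by
    calc 8 * (m:ℝ) = (8 * (m:ℝ)) ^ 1 := by ring
      _ ≤ (8 * (m : ℝ)) ^ (k + 1) := pow_le_pow_right₀ h8 (by omega)
  unfold EE
  nlinarith

lemma EE_gap {m : ℕ} (hm : 1 ≤ m) {k l : ℕ} (hkl : k < l) :
    8 * (m:ℝ) * EE m k ≤ EE m l := by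
  have h := HH_pos m
  have hm1 : (1:ℝ) ≤ m := by exact_mod_cast hm
  have h8 : (1:ℝ) ≤ 8 * (m:ℝ) := by linarith
  have h2 : (8 * (m : ℝ)) ^ (k + 2) ≤ (8 * (m : ℝ)) ^ (l + 1) :=
    pow_le_pow_right₀ h8 (by omega)
  unfold EE
  calc 8 * (m:ℝ) * (HH m * (8 * (m : ℝ)) ^ (k + 1)) = HH m * (8 * (m : ℝ)) ^ (k + 2) := by ring
    _ ≤ HH m * (8 * (m : ℝ)) ^ (l + 1) := mul_le_mul_of_nonneg_left h2 h.le

lemma RR_pos {m : ℕ} (D : ℕ) (hm : 1 ≤ m) (k : ℕ) : 0 < RR D m k := by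
  have h1 := EE_ge hm k
  have h2 := HH_pos m
  have h3 := gg_pos D m
  unfold RR
  apply div_pos _ h3
  linarith

lemma RR_le_RM {m : ℕ} (D : ℕ) (hm : 1 ≤ m) (k : Fin m) : RR D m k ≤ RM D m := by
  have h2 := HH_pos m
  have h3 := QQ_pos m
  unfold RM
  have := Finset.single_le_sum (f := fun k : Fin m => RR D m k)
    (fun i _ => (RR_pos D hm i).le) (Finset.mem_univ k)
  have h4 : 0 < QQ m ^ D * HH m := by positivity
  linarith

lemma QH_le_RM {m a : ℕ} (D : ℕ) (hm : 1 ≤ m) (ha : a ≤ D) : (QQ m) ^ a * HH m ≤ RM D m := by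
  unfold RM
  have h1 : 0 ≤ ∑ k : Fin m, RR D m k := Finset.sum_nonneg fun i _ => (RR_pos D hm i).le
  have h2 : (QQ m) ^ a ≤ (QQ m) ^ D := pow_le_pow_right₀ (one_le_QQ m) ha
  have h3 := HH_pos m
  have := mul_le_mul_of_nonneg_right h2 h3.le
  linarith

lemma idx_le {m : ℕ} (i : Fin m) : ((i : ℕ) : ℝ) + 1 ≤ m := by exact_mod_cast i.2

lemma t_le {m : ℕ} (i : Fin m) : (m : ℝ) * ((i : ℕ) : ℝ) ≤ HH m - 2 := by
  have := idx_le i
  unfold HH
  have hm : (0:ℝ) ≤ m := by positivity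
  nlinarith

/-- the long plates are below the other pieces in the middle region -/
lemma plate_low {D m a : ℕ} (hm : 1 ≤ m) (ha : a ≤ D) (k : Fin m) {X : ℝ}
    (hX : X ≤ (QQ m) ^ a * HH m) :
    -EE m k + (((k : ℕ) : ℝ) + 1) * gg D m * X < -1 := by
  have h1 := EE_ge hm k
  have h2 := HH_ge m
  have h3 := gg_pos D m
  have hk := idx_le k
  have hk0 : (0:ℝ) ≤ ((k : ℕ) : ℝ) := by positivity
  have hs0 : 0 ≤ (((k : ℕ) : ℝ) + 1) * gg D m := by positivity
  have hs : (((k : ℕ) : ℝ) + 1) * gg D m * (QQ m) ^ a ≤ 1 / (1000 * (HH m) ^ 2) := by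
    apply slope_le ha hs0
    apply mul_le_mul_of_nonneg_right _ h3.le
    linarith
  have hs1 : (((k : ℕ) : ℝ) + 1) * gg D m * (QQ m) ^ a ≤ 1 := by
    refine hs.trans ?_
    rw [div_le_one (by positivity)]
    nlinarith
  have : (((k : ℕ) : ℝ) + 1) * gg D m * X ≤ HH m := by
    calc (((k : ℕ) : ℝ) + 1) * gg D m * X
        ≤ (((k : ℕ) : ℝ) + 1) * gg D m * ((QQ m) ^ a * HH m) :=
          mul_le_mul_of_nonneg_left hX hs0
      _ = (((k : ℕ) : ℝ) + 1) * gg D m * (QQ m) ^ a * HH m := by ring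
      _ ≤ 1 * HH m := mul_le_mul_of_nonneg_right hs1 (by linarith)
      _ = HH m := one_mul _
  linarith

lemma plates_disjoint {D m r : ℕ} (hm : 1 ≤ m) {k l : Fin m} (hkl : (k : ℕ) < l)
    (x : E (D + 3)) (h1 : x ∈ G D m r (Sum.inr (Sum.inr (Sum.inl k))))
    (h2 : x ∈ G D m r (Sum.inr (Sum.inr (Sum.inl l)))) : False := by
  simp only [G, Set.mem_ofPred_eq] at h1 h2
  have hg := gg_pos D m
  have hH := HH_pos m
  have hE := EE_ge hm (k : ℕ)
  have hgap := EE_gap hm hkl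
  have hm1 : (1:ℝ) ≤ m := by exact_mod_cast hm
  have hx := (abs_le.mp h1.2).2
  have e1 : EE m l - EE m k = (((l : ℕ) : ℝ) - ((k : ℕ) : ℝ)) * (gg D m * cd x 0) := by
    linear_combination h2.1 - h1.1
  have hlk : (0:ℝ) < ((l : ℕ) : ℝ) - ((k : ℕ) : ℝ) := by
    have : ((k : ℕ) : ℝ) < ((l : ℕ) : ℝ) := by exact_mod_cast hkl
    linarith
  have hlm : ((l : ℕ) : ℝ) - ((k : ℕ) : ℝ) ≤ m := by
    have h3 := idx_le l
    have h4 : (0:ℝ) ≤ ((k : ℕ) : ℝ) := by positivity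
    linarith
  have e2 : gg D m * cd x 0 ≤ 2 * (EE m k + HH m) := by
    calc gg D m * cd x 0 ≤ gg D m * RR D m k := mul_le_mul_of_nonneg_left hx hg.le
      _ = 2 * (EE m k + HH m) := by unfold RR; field_simp
  have e3 : (((l : ℕ) : ℝ) - ((k : ℕ) : ℝ)) * (gg D m * cd x 0) ≤
      m * (2 * (EE m k + HH m)) := by
    have h5 : 0 ≤ 2 * (EE m k + HH m) := by linarith
    calc (((l : ℕ) : ℝ) - ((k : ℕ) : ℝ)) * (gg D m * cd x 0)
        ≤ (((l : ℕ) : ℝ) - ((k : ℕ) : ℝ)) * (2 * (EE m k + HH m)) :=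
          mul_le_mul_of_nonneg_left e2 hlk.le
      _ ≤ m * (2 * (EE m k + HH m)) := mul_le_mul_of_nonneg_right hlm h5
  have hEpos : 0 < EE m k := by linarith
  have h6 : (m:ℝ) * HH m ≤ m * EE m k / 8 := by nlinarith
  have h7 : EE m k ≤ m * EE m k := by nlinarith
  have h8 : 0 < (m:ℝ) * EE m k := by positivity
  linarith

/-- horizontal extent of the lower pieces -/
lemma L_ext {D m r : ℕ} {a : Fin (D + 1)} {j : Fin m} {x : E (D + 3)}
    (h : x ∈ G D m r (Sum.inl (a, j))) : 0 < cd x 0 ∧ |cd x 0| ≤ (QQ m) ^ (a : ℕ) * HH m := by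
  simp only [G, Set.mem_ofPred_eq] at h
  have hQ : 0 < (QQ m) ^ (a : ℕ) := pow_pos (QQ_pos m) _
  have h1 := idx_le j
  have h2 := m_le_HH m
  have hj : (0:ℝ) ≤ ((j : ℕ) : ℝ) := by positivity
  have h3 : 0 < cd x 0 := by rw [h.1]; positivity
  refine ⟨h3, ?_⟩
  rw [abs_of_pos h3, h.1]
  exact mul_le_mul_of_nonneg_left (by linarith) hQ.le

/-- horizontal extent of the upper pieces -/
lemma U_ext {D m r : ℕ} {a : Fin (D + 1)} {i : Fin m} {x : E (D + 3)}
    (h : x ∈ G D m r (Sum.inr (Sum.inl (a, i)))) : |cd x 0| ≤ (QQ m) ^ (a : ℕ) * HH m := by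
  simp only [G, Set.mem_ofPred_eq] at h
  obtain ⟨h1, -, h3⟩ := h
  have hQ : 0 < (QQ m) ^ (a : ℕ) := pow_pos (QQ_pos m) _
  have ha := a.2
  obtain ⟨h4, h5⟩ := h3 (a + 2) le_rfl (by omega)
  have h6 := t_le i
  have h7 : (0:ℝ) ≤ (m : ℝ) * ((i : ℕ) : ℝ) := by positivity
  rw [h1, abs_mul, abs_of_pos hQ]
  apply mul_le_mul_of_nonneg_left _ hQ.le
  rw [abs_le]
  constructor <;> linarith

/-- an upper piece of a later level is above everything near the centre -/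
lemma U_high {D m r : ℕ} {b : Fin (D + 1)} {i : Fin m} {x : E (D + 3)}
    (h : x ∈ G D m r (Sum.inr (Sum.inl (b, i)))) {a : ℕ} (hab : a < b)
    (hx : |cd x 0| ≤ (QQ m) ^ a * HH m) : HH m < cd x (b + 1) := by
  simp only [G, Set.mem_ofPred_eq] at h
  obtain ⟨h1, h2, -⟩ := h
  have hQ0 := QQ_pos m
  have hH := HH_ge m
  have hQH := QQ_ge m
  have h3 := h2 0 (Nat.zero_le _)
  obtain ⟨t, ht⟩ : ∃ t, t = (m : ℝ) * ((i : ℕ) : ℝ) := ⟨_, rfl⟩
  have ht0 : 0 ≤ t := by rw [ht]; positivity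
  have ht1 : t ≤ HH m - 2 := by rw [ht]; exact t_le i
  rw [← ht] at h1 h3
  push_cast at h3
  obtain ⟨τ, hτ⟩ : ∃ τ, τ = cd x ((b : ℕ) + 2) := ⟨_, rfl⟩
  rw [← hτ] at h1 h3
  -- |τ - t| ≤ HH / QQ
  have h4 : |τ - t| * QQ m ≤ HH m := by
    have h5 : (QQ m) ^ (a : ℕ) * (|τ - t| * QQ m) ≤ (QQ m) ^ (a : ℕ) * HH m := by
      have h6 : (QQ m) ^ (a + 1) ≤ (QQ m) ^ (b : ℕ) :=
        pow_le_pow_right₀ (one_le_QQ m) hab
      calc (QQ m) ^ (a : ℕ) * (|τ - t| * QQ m) = (QQ m) ^ (a + 1) * |τ - t| := by ring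
        _ ≤ (QQ m) ^ (b : ℕ) * |τ - t| := mul_le_mul_of_nonneg_right h6 (abs_nonneg _)
        _ = |cd x 0| := by rw [h1, abs_mul, abs_of_pos (pow_pos hQ0 _)]
        _ ≤ _ := hx
    exact le_of_mul_le_mul_left h5 (pow_pos hQ0 _)
  have h7 : |τ - t| ≤ 1 / 32000 := by
    by_contra hcon
    push Not at hcon
    have : 1 / 32000 * QQ m < |τ - t| * QQ m := mul_lt_mul_of_pos_right hcon hQ0
    linarith
  have h8 : |τ - t| * (32000 * HH m) ≤ HH m := by
    refine le_trans (mul_le_mul_of_nonneg_left ?_ (abs_nonneg _)) h4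
    exact hQH
  have h9 : -(t * |τ - t|) ≤ t * (τ - t) := by
    have := neg_abs_le (τ - t)
    nlinarith
  have h10 : t * |τ - t| ≤ 1 / 32 := by
    have h11 : HH m * |τ - t| ≤ 1 / 32 * 1 := by
      have h12 : |τ - t| * 32000 ≤ 1 := by
        have h13 : (|τ - t| * 32000) * HH m ≤ 1 * HH m := by linarith
        exact le_of_mul_le_mul_right h13 (by linarith)
      -- use the fourth power
      have h14 : |τ - t| * (32000 * (HH m) ^ 4) ≤ HH m := h4
      have h15 : (HH m * |τ - t|) * (32000 * (HH m) ^ 2) ≤ 1 := by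
        have h16 : ((HH m * |τ - t|) * (32000 * (HH m) ^ 2)) * HH m ≤ 1 * HH m := by
          calc ((HH m * |τ - t|) * (32000 * (HH m) ^ 2)) * HH m =
              |τ - t| * (32000 * (HH m) ^ 4) := by ring
            _ ≤ 1 * HH m := by linarith
        exact le_of_mul_le_mul_right h16 (by linarith)
      have h17 : (1:ℝ) ≤ (HH m) ^ 2 := by nlinarith
      have h18 : 0 ≤ HH m * |τ - t| := by positivity
      nlinarith
    have h19 : t * |τ - t| ≤ HH m * |τ - t| :=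
      mul_le_mul_of_nonneg_right (by linarith) (abs_nonneg _)
    linarith
  have h20 : BB m * (1 / 16) < cd x ((b : ℕ) + 1) ∨ BB m * (3 / 32) ≤ cd x ((b : ℕ) + 1) := by
    right
    refine le_trans ?_ h3
    apply mul_le_mul_of_nonneg_left _ (by unfold BB; linarith)
    have : (t + 2 * 0) * τ - (t + 0) ^ 2 + 1 / 8 = t * (τ - t) + 1 / 8 := by ring
    rw [this]; linarith
  rcases h20 with h | h
  · unfold BB at h; linarith
  · unfold BB at h; linarith

lemma LU_same {D m r : ℕ} {a : Fin (D + 1)} {i j : Fin m} {x : E (D + 3)}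
    (h1 : x ∈ G D m r (Sum.inl (a, j))) (h2 : x ∈ G D m r (Sum.inr (Sum.inl (a, i)))) :
    False := by
  simp only [G, Set.mem_ofPred_eq] at h1 h2
  obtain ⟨h3, h4, -⟩ := h1
  obtain ⟨h5, h6, -⟩ := h2
  have hH := HH_pos m
  have hQ : (QQ m) ^ (a : ℕ) ≠ 0 := (pow_pos (QQ_pos m) _).ne'
  have h7 : ((j : ℕ) : ℝ) + 1 = cd x (a + 2) - (m : ℝ) * ((i : ℕ) : ℝ) :=
    mul_left_cancel₀ hQ (h3.symm.trans h5)
  have h8 := h6 ((j : ℕ) + 1) j.2
  push_cast at h8
  obtain ⟨t, ht⟩ : ∃ t, t = (m : ℝ) * ((i : ℕ) : ℝ) := ⟨_, rfl⟩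
  obtain ⟨w, hw⟩ : ∃ w, w = ((j : ℕ) : ℝ) + 1 := ⟨_, rfl⟩
  rw [← ht, ← hw] at h7 h8
  rw [← hw] at h4
  have h9 : cd x ((a : ℕ) + 2) = t + w := by linarith
  rw [h9] at h4 h8
  have h10 := h8.trans h4
  have h11 : (0:ℝ) < BB m := by unfold BB; linarith
  have h12 := le_of_mul_le_mul_left h10 h11
  nlinarith

lemma disjoint_G {D m r : ℕ} (hm : 1 ≤ m) (e f : Idx D m r) (hne : e ≠ f) :
    Disjoint (G D m r e) (G D m r f) := by
  have hH := HH_ge m
  have hHp := HH_pos m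
  have hQp := QQ_pos m
  -- levels
  have LL : ∀ a j b i (x : E (D + 3)), x ∈ G D m r (Sum.inl (a, j)) →
      x ∈ G D m r (Sum.inl (b, i)) → (a : ℕ) < b → False := by
    intro a j b i x h1 h2 hab
    have h3 := (L_ext h1).2
    have h4 := (L_ext h2).1
    simp only [G, Set.mem_ofPred_eq] at h2
    rw [abs_of_pos h4, h2.1] at h3
    have h6 : (QQ m) ^ ((a : ℕ) + 1) ≤ (QQ m) ^ (b : ℕ) :=
      pow_le_pow_right₀ (one_le_QQ m) hab
    have h7 : (0:ℝ) ≤ ((i : ℕ) : ℝ) := by positivity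
    have h8 : (QQ m) ^ (b : ℕ) * 1 ≤ (QQ m) ^ (b : ℕ) * (((i : ℕ) : ℝ) + 1) :=
      mul_le_mul_of_nonneg_left (by linarith) (pow_pos hQp _).le
    have h9 : (QQ m) ^ (a : ℕ) * QQ m ≤ (QQ m) ^ (a : ℕ) * HH m := by
      rw [← pow_succ]; linarith
    have h10 := le_of_mul_le_mul_left h9 (pow_pos hQp _)
    have := QQ_ge m
    linarith
  have LxU : ∀ a j b i (x : E (D + 3)), x ∈ G D m r (Sum.inl (a, j)) →
      x ∈ G D m r (Sum.inr (Sum.inl (b, i))) → False := by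
    intro a j b i x h1 h2
    rcases lt_trichotomy (a : ℕ) (b : ℕ) with hab | hab | hab
    · have h3 := (L_ext h1).2
      have h4 := U_high h2 hab h3
      simp only [G, Set.mem_ofPred_eq] at h1
      obtain ⟨-, -, h5⟩ := h1
      have hb := b.2
      have h6 := (h5 (b + 1) (by omega) (by omega)).2
      linarith
    · have hab' : a = b := Fin.ext hab
      subst hab'
      exact LU_same h1 h2
    · have h3 := U_ext h2
      have h4 := (L_ext h1).1
      simp only [G, Set.mem_ofPred_eq] at h1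
      rw [abs_of_pos h4, h1.1] at h3
      have h6 : (QQ m) ^ ((b : ℕ) + 1) ≤ (QQ m) ^ (a : ℕ) :=
        pow_le_pow_right₀ (one_le_QQ m) hab
      have h7 : (0:ℝ) ≤ ((j : ℕ) : ℝ) := by positivity
      have h8 : (QQ m) ^ (a : ℕ) * 1 ≤ (QQ m) ^ (a : ℕ) * (((j : ℕ) : ℝ) + 1) :=
        mul_le_mul_of_nonneg_left (by linarith) (pow_pos hQp _).le
      have h9 : (QQ m) ^ (b : ℕ) * QQ m ≤ (QQ m) ^ (b : ℕ) * HH m := by
        rw [← pow_succ]; linarith
      have h10 := le_of_mul_le_mul_left h9 (pow_pos hQp _)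
      have := QQ_ge m
      linarith
  have UU : ∀ a j b i (x : E (D + 3)), x ∈ G D m r (Sum.inr (Sum.inl (a, j))) →
      x ∈ G D m r (Sum.inr (Sum.inl (b, i))) → (a : ℕ) < b → False := by
    intro a j b i x h1 h2 hab
    have h3 := U_ext h1
    have h4 := U_high h2 hab h3
    simp only [G, Set.mem_ofPred_eq] at h1
    obtain ⟨-, -, h5⟩ := h1
    have hb := b.2
    have h6 := (h5 (b + 1) (by omega) (by omega)).2
    linarith
  have LZ : ∀ a j k (x : E (D + 3)), x ∈ G D m r (Sum.inl (a, j)) →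
      x ∈ G D m r (Sum.inr (Sum.inr (Sum.inl k))) → False := by
    intro a j k x h1 h2
    have ha := a.2
    have h3 := (abs_le.mp (L_ext h1).2).2
    have h4 := plate_low (D := D) (a := (a : ℕ)) hm (by omega) k h3
    simp only [G, Set.mem_ofPred_eq] at h1 h2
    have h5 := (h1.2.2 (D + 2) (by omega) (by omega)).1
    linarith [h2.1]
  have UZ : ∀ a j k (x : E (D + 3)), x ∈ G D m r (Sum.inr (Sum.inl (a, j))) →
      x ∈ G D m r (Sum.inr (Sum.inr (Sum.inl k))) → False := by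
    intro a j k x h1 h2
    have ha := a.2
    have h3 := (abs_le.mp (U_ext h1)).2
    have h4 := plate_low (D := D) (a := (a : ℕ)) hm (by omega) k h3
    simp only [G, Set.mem_ofPred_eq] at h1 h2
    have h5 := (h1.2.2 (D + 2) (by omega) (by omega)).1
    linarith [h2.1]
  have LW : ∀ a j q (x : E (D + 3)), x ∈ G D m r (Sum.inl (a, j)) →
      x ∈ G D m r (Sum.inr (Sum.inr (Sum.inr q))) → False := by
    intro a j q x h1 h2
    have ha := a.2
    have h3 := (abs_le.mp (L_ext h1).2).2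
    have h4 := QH_le_RM (a := (a : ℕ)) D hm (by omega)
    simp only [G, Set.mem_ofPred_eq] at h2
    have h6 : (0:ℝ) ≤ ((q : ℕ) : ℝ) := by positivity
    linarith
  have UW : ∀ a j q (x : E (D + 3)), x ∈ G D m r (Sum.inr (Sum.inl (a, j))) →
      x ∈ G D m r (Sum.inr (Sum.inr (Sum.inr q))) → False := by
    intro a j q x h1 h2
    have ha := a.2
    have h3 := (abs_le.mp (U_ext h1)).2
    have h4 := QH_le_RM (a := (a : ℕ)) D hm (by omega)
    simp only [G, Set.mem_ofPred_eq] at h2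
    have h6 : (0:ℝ) ≤ ((q : ℕ) : ℝ) := by positivity
    linarith
  have ZW : ∀ k q (x : E (D + 3)), x ∈ G D m r (Sum.inr (Sum.inr (Sum.inl k))) →
      x ∈ G D m r (Sum.inr (Sum.inr (Sum.inr q))) → False := by
    intro k q x h1 h2
    simp only [G, Set.mem_ofPred_eq] at h1 h2
    have h5 := RR_le_RM D hm k
    have h6 : (0:ℝ) ≤ ((q : ℕ) : ℝ) := by positivity
    linarith [(abs_le.mp h1.2).2]
  rw [Set.disjoint_left]
  intro x hx hy
  rcases e with ⟨a, j⟩ | ⟨a, i⟩ | k | q <;> rcases f with ⟨b, j'⟩ | ⟨b, i'⟩ | k' | q'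
  · rcases lt_trichotomy (a : ℕ) (b : ℕ) with hab | hab | hab
    · exact LL _ _ _ _ x hx hy hab
    · have hab' : a = b := Fin.ext hab
      subst hab'
      simp only [G, Set.mem_ofPred_eq] at hx hy
      have h1 := mul_left_cancel₀ (pow_pos hQp _).ne' (hx.1.symm.trans hy.1)
      have h2 : ((j : ℕ) : ℝ) = ((j' : ℕ) : ℝ) := by linarith
      have h3 : (j : ℕ) = j' := by exact_mod_cast h2
      exact hne (by rw [Fin.ext h3])
    · exact LL _ _ _ _ x hy hx hab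
  · exact LxU _ _ _ _ _ hx hy
  · exact LZ _ _ _ _ hx hy
  · exact LW _ _ _ _ hx hy
  · exact LxU _ _ _ _ _ hy hx
  · rcases lt_trichotomy (a : ℕ) (b : ℕ) with hab | hab | hab
    · exact UU _ _ _ _ x hx hy hab
    · have hab' : a = b := Fin.ext hab
      subst hab'
      simp only [G, Set.mem_ofPred_eq] at hx hy
      have h1 := mul_left_cancel₀ (pow_pos hQp _).ne' (hx.1.symm.trans hy.1)
      have hm0 : (m : ℝ) ≠ 0 := by
        have : (1:ℝ) ≤ m := by exact_mod_cast hm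
        linarith
      have h2 : (m:ℝ) * ((i : ℕ) : ℝ) = (m:ℝ) * ((i' : ℕ) : ℝ) := by linarith
      have h3 : ((i : ℕ) : ℝ) = ((i' : ℕ) : ℝ) := mul_left_cancel₀ hm0 h2
      have h4 : (i : ℕ) = i' := by exact_mod_cast h3
      exact hne (by rw [Fin.ext h4])
    · exact UU _ _ _ _ x hy hx hab
  · exact UZ _ _ _ _ hx hy
  · exact UW _ _ _ _ hx hy
  · exact LZ _ _ _ _ hy hx
  · exact UZ _ _ _ _ hy hx
  · rcases lt_trichotomy (k : ℕ) k' with h | h | h
    · exact plates_disjoint hm h x hx hy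
    · exact hne (by rw [Fin.ext h])
    · exact plates_disjoint hm h x hy hx
  · exact ZW _ _ _ hx hy
  · exact LW _ _ _ _ hy hx
  · exact UW _ _ _ _ hy hx
  · exact ZW _ _ _ hy hx
  · simp only [G, Set.mem_ofPred_eq] at hx hy
    have h1 : ((q : ℕ) : ℝ) = ((q' : ℕ) : ℝ) := by linarith
    have h2 : (q : ℕ) = q' := by exact_mod_cast h1
    exact hne (by rw [Fin.ext h2])

/-! ### The lines -/

/-- offsets -/
def Pq (c : ℕ → ℝ) : ℕ → ℝ
  | 0 => 0
  | 1 => 0
  | (q + 2) => c q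

/-- slopes -/
noncomputable def Yq (D m : ℕ) (c : ℕ → ℝ) (s : ℝ) : ℕ → ℝ
  | 0 => 1
  | (q + 1) => if q ≤ D then BB m * c q / (QQ m) ^ q else s

/-- base point -/
noncomputable def bp (D : ℕ) (c : ℕ → ℝ) : E (D + 3) :=
  WithLp.toLp 2 (fun i : Fin (D + 3) => Pq c (i : ℕ))

/-- direction -/
noncomputable def dv (D m : ℕ) (c : ℕ → ℝ) (s : ℝ) : E (D + 3) :=
  WithLp.toLp 2 (fun i : Fin (D + 3) => Yq D m c s (i : ℕ))

lemma cd_pt {D m : ℕ} (c : ℕ → ℝ) (s a : ℝ) {q : ℕ} (hq : q < D + 3) :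
    cd (bp D c + a • dv D m c s) q = Pq c q + a * Yq D m c s q := by
  simp [cd, hq, bp, dv]

lemma cd_pt0 {D m : ℕ} (c : ℕ → ℝ) (s a : ℝ) :
    cd (bp D c + a • dv D m c s) 0 = a := by
  rw [cd_pt c s a (by omega)]; simp [Pq, Yq]

lemma dv_ne (D m : ℕ) (c : ℕ → ℝ) (s : ℝ) : dv D m c s ≠ 0 := by
  intro h
  have := congrArg (fun x : E (D + 3) => x ⟨0, by omega⟩) h
  simp [dv, Yq] at this

/-- Admissible parameters of lines. -/
structure Adm (D m : ℕ) (c : ℕ → ℝ) (s : ℝ) : Prop where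
  c_lo : ∀ q, 1 / 2 ≤ c q
  c_hi : ∀ q, c q ≤ HH m - 3 / 2
  c_half : ∀ q, ∃ z : ℤ, c q = (z : ℝ) + 1 / 2
  s_pos : 0 < s
  s_hi : s ≤ ((m : ℝ) + 1) * gg D m

lemma tau_small {D m a q : ℕ} {c : ℕ → ℝ} {s : ℝ} (h : Adm D m c s) (ha : a ≤ D)
    (hq : a + 2 ≤ q) :
    0 ≤ Yq D m c s q * (QQ m) ^ a ∧ Yq D m c s q * (QQ m) ^ a ≤ 1 / (1000 * (HH m) ^ 2) := by
  obtain ⟨p, rfl⟩ : ∃ p, q = p + 1 := ⟨q - 1, by omega⟩
  have hH := HH_pos m
  have hQ := QQ_pos m
  simp only [Yq]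
  split_ifs with hp
  · have hc := h.c_lo p
    have hc' := h.c_hi p
    have hB : 0 < BB m := by unfold BB; linarith
    constructor
    · have : 0 ≤ c p := by linarith
      positivity
    · have h1 : (QQ m) ^ (a + 1) ≤ (QQ m) ^ p := pow_le_pow_right₀ (one_le_QQ m) (by omega)
      have hpp : 0 < (QQ m) ^ p := pow_pos hQ _
      have hap : 0 < (QQ m) ^ a := pow_pos hQ _
      have h2 : BB m * c p * (1000 * (HH m) ^ 2) ≤ QQ m := by
        have h3 : BB m * c p ≤ BB m * HH m := mul_le_mul_of_nonneg_left (by linarith) hB.le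
        calc BB m * c p * (1000 * (HH m) ^ 2) ≤ BB m * HH m * (1000 * (HH m) ^ 2) :=
              mul_le_mul_of_nonneg_right h3 (by positivity)
          _ = QQ m := by unfold BB QQ; ring
      rw [div_mul_eq_mul_div, div_le_div_iff₀ hpp (by positivity)]
      calc BB m * c p * (QQ m) ^ a * (1000 * (HH m) ^ 2)
          = (BB m * c p * (1000 * (HH m) ^ 2)) * (QQ m) ^ a := by ring
        _ ≤ QQ m * (QQ m) ^ a := mul_le_mul_of_nonneg_right h2 hap.le
        _ = (QQ m) ^ (a + 1) := by ring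
        _ ≤ 1 * (QQ m) ^ p := by linarith
  · constructor
    · have := h.s_pos
      positivity
    · exact slope_le ha h.s_pos.le h.s_hi

lemma Pq_bounds {D m q : ℕ} {c : ℕ → ℝ} {s : ℝ} (h : Adm D m c s) (hq : 2 ≤ q) :
    1 / 2 ≤ Pq c q ∧ Pq c q ≤ HH m - 3 / 2 := by
  obtain ⟨p, rfl⟩ : ∃ p, q = p + 2 := ⟨q - 2, by omega⟩
  exact ⟨h.c_lo p, h.c_hi p⟩

/-- truncation conditions hold near the centre -/
lemma trunc_pt {D m a : ℕ} {c : ℕ → ℝ} {s : ℝ} (h : Adm D m c s) (ha : a ≤ D) {ξ : ℝ}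
    (hξ : |ξ| ≤ HH m) :
    trunc m a (bp D c + ((QQ m) ^ a * ξ) • dv D m c s) := by
  intro q hq hqD
  rw [cd_pt c s _ hqD]
  obtain ⟨h1, h2⟩ := Pq_bounds h (by omega : 2 ≤ q)
  obtain ⟨h3, h4⟩ := tau_small h ha hq
  have hH := HH_ge m
  have h5 : |(QQ m) ^ a * ξ * Yq D m c s q| ≤ 1 / 1000 := by
    have e : (QQ m) ^ a * ξ * Yq D m c s q = (Yq D m c s q * (QQ m) ^ a) * ξ := by ring
    rw [e, abs_mul, abs_of_nonneg h3]
    calc Yq D m c s q * (QQ m) ^ a * |ξ| ≤ 1 / (1000 * (HH m) ^ 2) * HH m :=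
          mul_le_mul h4 hξ (abs_nonneg _) (by positivity)
      _ = 1 / (1000 * HH m) := by field_simp
      _ ≤ 1 / 1000 := by
          apply one_div_le_one_div_of_le (by norm_num)
          linarith
  obtain ⟨h6, h7⟩ := abs_le.mp h5
  constructor <;> linarith

lemma half_le_abs (z : ℤ) : (1 / 2 : ℝ) ≤ |(z : ℝ) + 1 / 2| := by
  rcases le_or_gt 0 z with h | h
  · have : (0 : ℝ) ≤ z := by exact_mod_cast h
    rw [abs_of_pos (by linarith)]; linarith
  · have : (z : ℝ) ≤ -1 := by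
      have : z ≤ -1 := by omega
      exact_mod_cast this
    rw [abs_of_neg (by linarith)]; linarith

/-- local coordinate of the point on an upper piece -/
noncomputable def xi (D m : ℕ) (c : ℕ → ℝ) (s : ℝ) (a i : ℕ) : ℝ :=
  (c a - (m : ℝ) * (i : ℝ)) / (1 - Yq D m c s (a + 2) * (QQ m) ^ a)

lemma sig_le {D m a : ℕ} {c : ℕ → ℝ} {s : ℝ} (h : Adm D m c s) (ha : a ≤ D) :
    Yq D m c s (a + 2) * (QQ m) ^ a ≤ 1 / 4000 := by
  obtain ⟨-, h1⟩ := tau_small h ha (le_refl (a + 2))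
  have hH := HH_ge m
  refine h1.trans ?_
  apply one_div_le_one_div_of_le (by norm_num)
  nlinarith

lemma xi_eq {D m a : ℕ} {c : ℕ → ℝ} {s : ℝ} (h : Adm D m c s) (ha : a ≤ D) (i : ℕ) :
    xi D m c s a i * (1 - Yq D m c s (a + 2) * (QQ m) ^ a) = c a - (m : ℝ) * (i : ℝ) := by
  have h1 := sig_le h ha
  unfold xi
  rw [div_mul_cancel₀ _ (by linarith)]

lemma xi_abs {D m a : ℕ} {c : ℕ → ℝ} {s : ℝ} (h : Adm D m c s) (ha : a ≤ D) (i : Fin m) :
    |xi D m c s a i| ≤ HH m := by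
  have h1 := xi_eq h ha i
  obtain ⟨h2, h3⟩ := tau_small h ha (le_refl (a + 2))
  have h3' := sig_le h ha
  obtain ⟨σ, hσ⟩ : ∃ σ, σ = Yq D m c s (a + 2) * (QQ m) ^ a := ⟨_, rfl⟩
  obtain ⟨X, hX⟩ : ∃ X, X = xi D m c s a i := ⟨_, rfl⟩
  rw [← hσ] at h1 h2 h3 h3'
  rw [← hX] at h1 ⊢
  have hH := HH_ge m
  have ht := t_le i
  have ht0 : (0:ℝ) ≤ (m : ℝ) * ((i : ℕ) : ℝ) := by positivity
  have hc := h.c_lo a
  have hc' := h.c_hi a
  have h1s : 0 < 1 - σ := by linarith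
  have h4 : |X| * (1 - σ) ≤ HH m - 3 / 2 := by
    rw [← abs_of_pos h1s, ← abs_mul, h1, abs_le]
    constructor <;> linarith
  by_contra hcon
  push Not at hcon
  have h6 : σ * HH m ≤ 1 / 1000 := by
    calc σ * HH m ≤ 1 / (1000 * (HH m) ^ 2) * HH m := mul_le_mul_of_nonneg_right h3 (by linarith)
      _ = 1 / (1000 * HH m) := by field_simp
      _ ≤ 1 / 1000 := by
          apply one_div_le_one_div_of_le (by norm_num)
          linarith
  have h7 : HH m * (1 - σ) < |X| * (1 - σ) := mul_lt_mul_of_pos_right hcon h1s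
  nlinarith

/-- parameter at which the line meets the given piece -/
noncomputable def al (D m r : ℕ) (c : ℕ → ℝ) (s : ℝ) : Idx D m r → ℝ
  | Sum.inl (a, j) => (QQ m) ^ (a : ℕ) * (((j : ℕ) : ℝ) + 1)
  | Sum.inr (Sum.inl (a, i)) => (QQ m) ^ (a : ℕ) * xi D m c s a i
  | Sum.inr (Sum.inr (Sum.inl k)) => -(EE m k + c D) / (s - (((k : ℕ) : ℝ) + 1) * gg D m)
  | Sum.inr (Sum.inr (Sum.inr q)) => RM D m + 1 + ((q : ℕ) : ℝ)

/-- slope separation -/
def Sep (D m : ℕ) (s : ℝ) : Prop :=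
  ∀ k : ℕ, gg D m / 2 ≤ |s - ((k : ℝ) + 1) * gg D m|

lemma Pq_succ_bounds {D m a : ℕ} {c : ℕ → ℝ} {s : ℝ} (h : Adm D m c s) :
    0 ≤ Pq c (a + 1) ∧ Pq c (a + 1) ≤ HH m := by
  rcases a with _ | a
  · simp only [Pq]; exact ⟨le_rfl, (HH_pos m).le⟩
  · obtain ⟨h1, h2⟩ := Pq_bounds h (by omega : 2 ≤ a + 1 + 1)
    constructor <;> linarith

lemma Yq_succ {D m a : ℕ} (c : ℕ → ℝ) (s : ℝ) (ha : a ≤ D) :
    Yq D m c s (a + 1) = BB m * c a / (QQ m) ^ a := by
  simp [Yq, ha]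

/-- the line meets every piece -/
lemma hits {D m r : ℕ} {c : ℕ → ℝ} {s : ℝ} (hm : 1 ≤ m) (h : Adm D m c s) (hsep : Sep D m s)
    (e : Idx D m r) :
    bp D c + al D m r c s e • dv D m c s ∈ G D m r e := by
  have hH := HH_ge m
  have hHp := HH_pos m
  have hQ := QQ_pos m
  have hB : 0 < BB m := by unfold BB; linarith
  rcases e with ⟨a, j⟩ | ⟨a, i⟩ | k' | q
  · have ha : (a : ℕ) ≤ D := Nat.lt_succ_iff.mp a.2
    have h1 := idx_le j
    have h2 := m_le_HH m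
    have hj : (0:ℝ) ≤ ((j : ℕ) : ℝ) := by positivity
    simp only [G, al, Set.mem_ofPred_eq]
    refine ⟨cd_pt0 _ _ _, ?_, ?_⟩
    · rw [cd_pt c s _ (by omega), cd_pt c s _ (by omega), Yq_succ c s ha]
      obtain ⟨h3, h4⟩ := Pq_succ_bounds (a := (a : ℕ)) h
      obtain ⟨h5, h6⟩ := tau_small h ha (le_refl ((a : ℕ) + 2))
      have hap : (QQ m) ^ (a : ℕ) ≠ 0 := (pow_pos hQ _).ne'
      obtain ⟨w, hw⟩ : ∃ w, w = ((j : ℕ) : ℝ) + 1 := ⟨_, rfl⟩
      rw [← hw]
      have e1 : (QQ m) ^ (a : ℕ) * w * (BB m * c a / (QQ m) ^ (a : ℕ)) = BB m * (c a * w) := by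
        field_simp
      have e2 : (QQ m) ^ (a : ℕ) * w * Yq D m c s ((a : ℕ) + 2) =
          w * (Yq D m c s ((a : ℕ) + 2) * (QQ m) ^ (a : ℕ)) := by ring
      rw [e1, e2]
      have hw0 : 0 ≤ w := by linarith
      have e3 : Pq c ((a : ℕ) + 2) = c a := rfl
      rw [e3]
      have h7 : 0 ≤ w * (w * (Yq D m c s ((a : ℕ) + 2) * (QQ m) ^ (a : ℕ))) := by positivity
      have h8 : BB m * (w * (c a + w * (Yq D m c s ((a : ℕ) + 2) * (QQ m) ^ (a : ℕ))) + 1 / 16) =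
          BB m * (c a * w) + BB m * (w * (w * (Yq D m c s ((a : ℕ) + 2) * (QQ m) ^ (a : ℕ)))) +
            BB m / 16 := by ring
      rw [h8]
      have h9 := mul_nonneg hB.le h7
      have h10 : HH m ≤ BB m / 16 := by unfold BB; linarith
      linarith
    · apply trunc_pt h ha
      rw [abs_of_nonneg (by linarith)]
      linarith
  · have ha : (a : ℕ) ≤ D := Nat.lt_succ_iff.mp a.2
    have hξe := xi_eq h ha (i : ℕ)
    have hξa := xi_abs h ha i
    obtain ⟨h5, h6⟩ := tau_small h ha (le_refl ((a : ℕ) + 2))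
    have h6' := sig_le h ha
    simp only [G, al, Set.mem_ofPred_eq]
    obtain ⟨X, hX⟩ : ∃ X, X = xi D m c s a (i : ℕ) := ⟨_, rfl⟩
    rw [← hX] at hξe hξa ⊢
    obtain ⟨σ, hσ⟩ : ∃ σ, σ = Yq D m c s ((a : ℕ) + 2) * (QQ m) ^ (a : ℕ) := ⟨_, rfl⟩
    have e2 : (QQ m) ^ (a : ℕ) * X * Yq D m c s ((a : ℕ) + 2) = σ * X := by rw [hσ]; ring
    rw [← hσ] at hξe h5 h6 h6'
    have e3 : Pq c ((a : ℕ) + 2) = c a := rfl
    refine ⟨?_, ?_, trunc_pt h ha hξa⟩
    · rw [cd_pt0, cd_pt c s _ (by omega), e2, e3]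
      congr 1
      linarith
    · intro w hw
      rw [cd_pt c s _ (by omega), cd_pt c s _ (by omega), e2, e3, Yq_succ c s ha]
      have hap : (QQ m) ^ (a : ℕ) ≠ 0 := (pow_pos hQ _).ne'
      have e1 : (QQ m) ^ (a : ℕ) * X * (BB m * c a / (QQ m) ^ (a : ℕ)) = BB m * (c a * X) := by
        field_simp
      rw [e1]
      obtain ⟨h3, -⟩ := Pq_succ_bounds (a := (a : ℕ)) h
      suffices hs : ((m : ℝ) * ((i : ℕ) : ℝ) + 2 * (w : ℝ)) * (c a + σ * X) -
          ((m : ℝ) * ((i : ℕ) : ℝ) + (w : ℝ)) ^ 2 + 1 / 8 ≤ c a * X by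
        have := mul_le_mul_of_nonneg_left hs hB.le
        linarith
      obtain ⟨t, ht⟩ : ∃ t, t = (m : ℝ) * ((i : ℕ) : ℝ) := ⟨_, rfl⟩
      rw [← ht] at hξe ⊢
      obtain ⟨v, hv⟩ : ∃ v : ℝ, v = (w : ℝ) := ⟨_, rfl⟩
      rw [← hv]
      have hh : c a + σ * X = X + t := by linarith
      have hcX : c a * X = X ^ 2 - σ * X ^ 2 + t * X := by
        have : c a = X * (1 - σ) + t := by linarith
        rw [this]; ring
      have hXsq : X ^ 2 ≤ (HH m) ^ 2 := by
        rw [← sq_abs X]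
        exact pow_le_pow_left₀ (abs_nonneg _) hξa 2
      have hsX2 : σ * X ^ 2 ≤ 1 / 1000 := by
        calc σ * X ^ 2 ≤ 1 / (1000 * (HH m) ^ 2) * (HH m) ^ 2 :=
              mul_le_mul h6 hXsq (sq_nonneg _) (by positivity)
          _ = 1 / 1000 := by field_simp
      have hsX : |σ * X| ≤ 1 / 1000 := by
        rw [abs_mul, abs_of_nonneg h5]
        calc σ * |X| ≤ 1 / (1000 * (HH m) ^ 2) * HH m :=
              mul_le_mul h6 hξa (abs_nonneg _) (by positivity)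
          _ = 1 / (1000 * HH m) := by field_simp
          _ ≤ 1 / 1000 := by
              apply one_div_le_one_div_of_le (by norm_num)
              linarith
      rw [hh, hcX]
      obtain ⟨z, hz⟩ := h.c_half a
      have hhalf : 1 / 2 ≤ |c a - t - v| := by
        have e1 : c a - t - v = ((z - (m : ℤ) * ((i : ℕ) : ℤ) - (w : ℤ) : ℤ) : ℝ)
            + 1 / 2 := by
          rw [hz, ht, hv]; push_cast; ring
        rw [e1]
        exact half_le_abs _
      have hXw : 499 / 1000 ≤ |X - v| := by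
        have e1 : c a - t - v = (X - v) + -(σ * X) := by linarith
        rw [e1] at hhalf
        have := abs_add_le (X - v) (-(σ * X))
        rw [abs_neg] at this
        linarith
      have hsq : (499 / 1000 : ℝ) ^ 2 ≤ (X - v) ^ 2 := by
        rw [← sq_abs (X - v)]
        exact pow_le_pow_left₀ (by norm_num) hXw 2
      nlinarith
  · have hg := gg_pos D m
    have hE := EE_ge hm (k' : ℕ)
    have hc := h.c_lo D
    have hc' := h.c_hi D
    simp only [G, al, Set.mem_ofPred_eq]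
    rw [cd_pt0, cd_pt c s _ (by omega)]
    have hDabs := hsep (k' : ℕ)
    obtain ⟨W, hW⟩ : ∃ W, W = s - (((k' : ℕ) : ℝ) + 1) * gg D m := ⟨_, rfl⟩
    rw [← hW] at hDabs ⊢
    have hDne : W ≠ 0 := by
      intro h
      rw [h, abs_zero] at hDabs
      linarith
    have e1 : Yq D m c s (D + 2) = s := by simp [Yq]
    have e2 : Pq c (D + 2) = c D := rfl
    rw [e1, e2]
    constructor
    · have : s = W + (((k' : ℕ) : ℝ) + 1) * gg D m := by rw [hW]; ring
      rw [this]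
      field_simp
      ring
    · rw [abs_div, abs_neg, abs_of_pos (by linarith : 0 < EE m k' + c D)]
      unfold RR
      rw [div_le_div_iff₀ (abs_pos.mpr hDne) hg]
      have h6 : EE m k' + c D ≤ EE m k' + HH m := by linarith
      have h7 : 0 < EE m k' + c D := by linarith
      nlinarith [mul_le_mul h6 hDabs (by positivity) (by linarith)]
  · simp only [G, al, Set.mem_ofPred_eq]
    exact cd_pt0 _ _ _

/-- the meeting parameter is unique -/
lemma hits_unique {D m r : ℕ} {c : ℕ → ℝ} {s : ℝ} (h : Adm D m c s) (hsep : Sep D m s)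
    (e : Idx D m r) {b : ℝ} (hb : bp D c + b • dv D m c s ∈ G D m r e) :
    b = al D m r c s e := by
  have hQ := QQ_pos m
  rcases e with ⟨a, j⟩ | ⟨a, i⟩ | k' | q
  · simp only [G, Set.mem_ofPred_eq, cd_pt0] at hb
    exact hb.1
  · have ha : (a : ℕ) ≤ D := Nat.lt_succ_iff.mp a.2
    have h6' := sig_le h ha
    simp only [G, Set.mem_ofPred_eq, cd_pt0] at hb
    have h1 := hb.1
    rw [cd_pt c s _ (by omega)] at h1
    have e3 : Pq c ((a : ℕ) + 2) = c a := rfl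
    rw [e3] at h1
    simp only [al, xi]
    rw [← mul_div_assoc, eq_div_iff (by linarith)]
    linear_combination h1
  · have hg := gg_pos D m
    have hDabs := hsep (k' : ℕ)
    have hne : s - (((k' : ℕ) : ℝ) + 1) * gg D m ≠ 0 := by
      intro h
      rw [h, abs_zero] at hDabs
      linarith
    simp only [G, Set.mem_ofPred_eq, cd_pt0] at hb
    have h1 := hb.1
    rw [cd_pt c s _ (by omega)] at h1
    have e1 : Yq D m c s (D + 2) = s := by simp [Yq]
    have e2 : Pq c (D + 2) = c D := rfl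
    rw [e1, e2] at h1
    simp only [al]
    rw [eq_div_iff hne]
    linear_combination h1
  · simp only [G, Set.mem_ofPred_eq, cd_pt0] at hb
    exact hb

/-! ### Counting -/

/-- times -/
noncomputable def tcf {D m : ℕ} (z : Fin (D + 1) → Fin (m ^ 2 + 1)) (q : ℕ) : ℝ :=
  (if h : q < D + 1 then (((z ⟨q, h⟩ : Fin (m ^ 2 + 1)) : ℕ) : ℝ) else 0) + 1 / 2

/-- last slopes -/
noncomputable def sl (D m l : ℕ) : ℝ := ((l : ℝ) + 1 / 2) * gg D m

lemma adm {D m l : ℕ} (z : Fin (D + 1) → Fin (m ^ 2 + 1)) (hl : l ≤ m) :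
    Adm D m (tcf z) (sl D m l) := by
  have hg := gg_pos D m
  refine ⟨fun q => ?_, fun q => ?_, fun q => ?_, ?_, ?_⟩
  · unfold tcf
    split_ifs with h
    · have : (0:ℝ) ≤ (((z ⟨q, h⟩ : Fin (m ^ 2 + 1)) : ℕ) : ℝ) := by positivity
      linarith
    · linarith
  · unfold tcf HH
    split_ifs with h
    · have h1 : ((z ⟨q, h⟩ : Fin (m ^ 2 + 1)) : ℕ) ≤ m ^ 2 := Nat.lt_succ_iff.mp (z ⟨q, h⟩).2
      have : (((z ⟨q, h⟩ : Fin (m ^ 2 + 1)) : ℕ) : ℝ) ≤ (m:ℝ) ^ 2 := by exact_mod_cast h1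
      linarith
    · nlinarith [sq_nonneg (m:ℝ)]
  · unfold tcf
    split_ifs with h
    · exact ⟨((z ⟨q, h⟩ : Fin (m ^ 2 + 1)) : ℕ), by push_cast; ring⟩
    · exact ⟨0, by push_cast; ring⟩
  · unfold sl; positivity
  · unfold sl
    apply mul_le_mul_of_nonneg_right _ hg.le
    have : (l : ℝ) ≤ m := by exact_mod_cast hl
    linarith

lemma sep (D m l : ℕ) : Sep D m (sl D m l) := by
  intro k
  have hg := gg_pos D m
  have e1 : sl D m l - ((k : ℝ) + 1) * gg D m =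
      ((((l : ℤ) - ((k : ℤ) + 1) : ℤ) : ℝ) + 1 / 2) * gg D m := by
    unfold sl; push_cast; ring
  rw [e1, abs_mul, abs_of_pos hg]
  have := half_le_abs ((l : ℤ) - ((k : ℤ) + 1))
  nlinarith

lemma card_Idx (D m r : ℕ) : Fintype.card (Idx D m r) = (2 * D + 3) * m + r := by
  simp [Idx]; ring

theorem main_count {D m r n : ℕ} (hm : 2 ≤ m) (hn : n = (2 * D + 3) * m + r) :
    (m ^ 2 + 1) ^ (D + 1) * (m + 1) ≤ g (D + 3) n := by
  classical
  have hm1 : 1 ≤ m := by omega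
  have hcard : Fintype.card (Fin n) = Fintype.card (Idx D m r) := by
    rw [card_Idx, Fintype.card_fin, hn]
  obtain ⟨eqv⟩ : Nonempty (Fin n ≃ Idx D m r) := ⟨Fintype.equivOfCardEq hcard⟩
  -- a common box
  obtain ⟨M, hM⟩ := (Set.finite_range
    (fun z : ((Fin (D + 1) → Fin (m ^ 2 + 1)) × Fin (m + 1)) × Idx D m r × Fin (D + 3) =>
      |(bp D (tcf z.1.1) + al D m r (tcf z.1.1) (sl D m z.1.2) z.2.1 •
        dv D m (tcf z.1.1) (sl D m z.1.2)) z.2.2|)).bddAbove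
  have hbox : ∀ (z : Fin (D + 1) → Fin (m ^ 2 + 1)) (l : ℕ), l ≤ m → ∀ e : Idx D m r,
      bp D (tcf z) + al D m r (tcf z) (sl D m l) e • dv D m (tcf z) (sl D m l) ∈
        Box (D := D) M := by
    intro z l hl e i
    exact hM ⟨((z, ⟨l, Nat.lt_succ_of_le hl⟩), e, i), rfl⟩
  -- the family
  obtain ⟨F, hFdef⟩ : ∃ F : Fin n → Set (E (D + 3)), ∀ i, F i = G D m r (eqv i) ∩ Box M :=
    ⟨_, fun _ => rfl⟩
  have hF : ∀ i, IsCompact (F i) ∧ Convex ℝ (F i) := by
    intro i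
    rw [hFdef]
    exact ⟨(isCompact_Box M).inter_left (good_G D m r _).1,
      (good_G D m r _).2.inter (convex_Box M)⟩
  have hdis : ∀ i j, i ≠ j → Disjoint (F i) (F j) := by
    intro i j hij
    rw [hFdef, hFdef]
    exact (disjoint_G hm1 _ _ (fun h => hij (eqv.injective h))).mono
      Set.inter_subset_left Set.inter_subset_left
  have hmem : ∀ (z : Fin (D + 1) → Fin (m ^ 2 + 1)) (l : ℕ), l ≤ m → ∀ i : Fin n,
      bp D (tcf z) + al D m r (tcf z) (sl D m l) (eqv i) • dv D m (tcf z) (sl D m l) ∈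
        F i := by
    intro z l hl i
    rw [hFdef]
    exact ⟨hits hm1 (adm z hl) (sep D m l) _, hbox z l hl _⟩
  have hord : ∀ (z : Fin (D + 1) → Fin (m ^ 2 + 1)) (l : ℕ), l ≤ m → ∀ i j : Fin n,
      (ord F (bp D (tcf z)) (dv D m (tcf z) (sl D m l)) i j ↔
        i ≠ j ∧ al D m r (tcf z) (sl D m l) (eqv i) < al D m r (tcf z) (sl D m l) (eqv j)) := by
    intro z l hl i j
    constructor
    · rintro ⟨hij, a, b, hab, ha, hb⟩
      rw [hFdef] at ha hb
      rw [← hits_unique (adm z hl) (sep D m l) _ ha.1,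
        ← hits_unique (adm z hl) (sep D m l) _ hb.1]
      exact ⟨hij, hab⟩
    · rintro ⟨hij, h⟩
      exact ⟨hij, _, _, h, hmem z l hl i, hmem z l hl j⟩
  have hm2 : (2:ℝ) ≤ m := by exact_mod_cast hm
  have hH := HH_ge m
  have hg := gg_pos D m
  have hQ := QQ_pos m
  -- small slopes
  have hsmall : ∀ (z : Fin (D + 1) → Fin (m ^ 2 + 1)) (l : ℕ), l ≤ m → ∀ a : ℕ, a ≤ D →
      0 ≤ Yq D m (tcf z) (sl D m l) (a + 2) * (QQ m) ^ a ∧
      Yq D m (tcf z) (sl D m l) (a + 2) * (QQ m) ^ a * m ≤ 1 / 1000 := by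
    intro z l hl a ha
    obtain ⟨h1, h2⟩ := tau_small (adm z hl) ha (le_refl (a + 2))
    refine ⟨h1, ?_⟩
    have h3 : (m:ℝ) ≤ (HH m) ^ 2 := by
      have := m_le_HH m
      nlinarith
    calc Yq D m (tcf z) (sl D m l) (a + 2) * (QQ m) ^ a * m
        ≤ 1 / (1000 * (HH m) ^ 2) * (HH m) ^ 2 :=
          mul_le_mul h2 h3 (by positivity) (by positivity)
      _ = 1 / 1000 := by field_simp
  have key1 : ∀ (z z' : Fin (D + 1) → Fin (m ^ 2 + 1)) (a : Fin (D + 1)) (l l' : ℕ),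
      ((z a : ℕ) < (z' a : ℕ)) → l ≤ m → l' ≤ m →
      ord F (bp D (tcf z)) (dv D m (tcf z) (sl D m l)) =
        ord F (bp D (tcf z')) (dv D m (tcf z') (sl D m l')) → False := by
    intro z z' a l l' hkk hl hl' heq
    obtain ⟨k, hk⟩ : ∃ k : ℕ, k = (z a : ℕ) := ⟨_, rfl⟩
    obtain ⟨k', hk'⟩ : ∃ k' : ℕ, k' = (z' a : ℕ) := ⟨_, rfl⟩
    rw [← hk, ← hk'] at hkk
    have hk'm : k' ≤ m ^ 2 := by rw [hk']; exact Nat.lt_succ_iff.mp (z' a).2
    have ha : (a : ℕ) ≤ D := Nat.lt_succ_iff.mp a.2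
    have hca : tcf z (a : ℕ) = (k : ℝ) + 1 / 2 := by
      unfold tcf; rw [dif_pos a.2, hk]
    have hca' : tcf z' (a : ℕ) = (k' : ℝ) + 1 / 2 := by
      unfold tcf; rw [dif_pos a.2, hk']
    have hkm : k < m * m := by nlinarith
    have hi : k / m < m := Nat.div_lt_of_lt_mul hkm
    have hj : k % m < m := Nat.mod_lt _ (by omega)
    have hdiv : m * (k / m) + k % m = k := Nat.div_add_mod k m
    have hdivR : (m:ℝ) * ((k / m : ℕ) : ℝ) + ((k % m : ℕ) : ℝ) = k := by exact_mod_cast hdiv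
    obtain ⟨U, hU⟩ : ∃ U : Fin n, eqv U = Sum.inr (Sum.inl (a, ⟨k / m, hi⟩)) :=
      ⟨eqv.symm _, eqv.apply_symm_apply _⟩
    obtain ⟨L, hL⟩ : ∃ L : Fin n, eqv L = Sum.inl (a, ⟨k % m, hj⟩) :=
      ⟨eqv.symm _, eqv.apply_symm_apply _⟩
    have hUL : U ≠ L := by
      intro h
      rw [h, hL] at hU
      exact absurd hU (by simp)
    have hap : 0 < (QQ m) ^ (a : ℕ) := pow_pos hQ _
    have h1 : ord F (bp D (tcf z)) (dv D m (tcf z) (sl D m l)) U L := by
      rw [hord z l hl, hU, hL]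
      refine ⟨hUL, ?_⟩
      simp only [al]
      apply mul_lt_mul_of_pos_left _ hap
      have hs := sig_le (adm z hl) ha
      obtain ⟨hs0, h2⟩ := hsmall z l hl a ha
      unfold xi
      rw [div_lt_iff₀ (by linarith), hca]
      obtain ⟨σ, hσ⟩ : ∃ σ, σ = Yq D m (tcf z) (sl D m l) ((a : ℕ) + 2) * (QQ m) ^ (a : ℕ) :=
        ⟨_, rfl⟩
      rw [← hσ] at hs hs0 h2 ⊢
      have h3 : ((k % m : ℕ) : ℝ) + 1 ≤ m := by exact_mod_cast hj
      have h4 : σ * (((k % m : ℕ) : ℝ) + 1) ≤ σ * m :=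
        mul_le_mul_of_nonneg_left h3 hs0
      nlinarith
    rw [heq, hord z' l' hl', hU, hL] at h1
    obtain ⟨-, h1⟩ := h1
    simp only [al] at h1
    have h1' := lt_of_mul_lt_mul_left h1 hap.le
    have hs := sig_le (adm z' hl') ha
    obtain ⟨hs0, -⟩ := hsmall z' l' hl' a ha
    unfold xi at h1'
    rw [div_lt_iff₀ (by linarith), hca'] at h1'
    have h5 : (k:ℝ) + 1 ≤ k' := by exact_mod_cast hkk
    have h6 : (0:ℝ) ≤ ((k % m : ℕ) : ℝ) := by positivity
    nlinarith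
  have key2 : ∀ (z : Fin (D + 1) → Fin (m ^ 2 + 1)) (l l' : ℕ), l < l' → l' ≤ m →
      ord F (bp D (tcf z)) (dv D m (tcf z) (sl D m l)) =
        ord F (bp D (tcf z)) (dv D m (tcf z) (sl D m l')) → False := by
    intro z l l' hll hl' heq
    have hlm : l < m := by omega
    obtain ⟨Z, hZ⟩ : ∃ Z : Fin n, eqv Z = Sum.inr (Sum.inr (Sum.inl ⟨l, hlm⟩)) :=
      ⟨eqv.symm _, eqv.apply_symm_apply _⟩
    obtain ⟨L, hL⟩ : ∃ L : Fin n, eqv L = Sum.inl (⟨0, by omega⟩, ⟨0, by omega⟩) :=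
      ⟨eqv.symm _, eqv.apply_symm_apply _⟩
    have hLZ : L ≠ Z := by
      intro h
      rw [← h, hL] at hZ
      exact absurd hZ (by simp)
    have hE := EE_ge hm1 l
    have hc := (adm (D := D) z (by omega : l ≤ m)).c_lo D
    have h1 : ord F (bp D (tcf z)) (dv D m (tcf z) (sl D m l)) L Z := by
      rw [hord z l (by omega), hL, hZ]
      refine ⟨hLZ, ?_⟩
      simp only [al]
      have e1 : sl D m l - ((l : ℝ) + 1) * gg D m = -(gg D m / 2) := by unfold sl; ring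
      rw [e1, neg_div_neg_eq, lt_div_iff₀ (by linarith)]
      have e2 : gg D m ≤ 1 := by
        have h2 := slope_le (D := D) (m := m) (a := 0) (Nat.zero_le _) hg.le
          (le_mul_of_one_le_left hg.le (by linarith))
        rw [pow_zero, mul_one] at h2
        refine h2.trans ?_
        rw [div_le_one (by positivity)]
        nlinarith
      push_cast
      linarith
    rw [heq, hord z l' hl', hL, hZ] at h1
    obtain ⟨-, h1⟩ := h1
    simp only [al] at h1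
    have e3 : (l:ℝ) + 1 ≤ l' := by exact_mod_cast hll
    have e4 : 0 < sl D m l' - ((l : ℝ) + 1) * gg D m := by
      have : sl D m l' - ((l : ℝ) + 1) * gg D m = ((l' : ℝ) + 1 / 2 - (l + 1)) * gg D m := by
        unfold sl; ring
      rw [this]
      apply mul_pos _ hg
      linarith
    rw [lt_div_iff₀ e4] at h1
    push_cast at h1
    nlinarith
  obtain ⟨i0, hi0⟩ : ∃ i0 : Fin n, eqv i0 = Sum.inl (⟨0, by omega⟩, ⟨0, by omega⟩) :=
    ⟨eqv.symm _, eqv.apply_symm_apply _⟩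
  obtain ⟨i1, hi1⟩ : ∃ i1 : Fin n, eqv i1 = Sum.inl (⟨0, by omega⟩, ⟨1, by omega⟩) :=
    ⟨eqv.symm _, eqv.apply_symm_apply _⟩
  have h01 : i0 ≠ i1 := by
    intro h
    rw [h, hi1] at hi0
    simp at hi0
  have hfin := card_le_g F hF hdis
    (κ := (Fin (D + 1) → Fin (m ^ 2 + 1)) × Fin (m + 1))
    (fun z => bp D (tcf z.1)) (fun z => dv D m (tcf z.1) (sl D m z.2)) (fun z => dv_ne _ _ _ _)
    (fun z i => ⟨_, hmem z.1 z.2 (Nat.lt_succ_iff.mp z.2.2) i⟩)
    i0 i1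
    (fun z => by
      rw [hord z.1 z.2 (Nat.lt_succ_iff.mp z.2.2), hi0, hi1]
      refine ⟨h01, ?_⟩
      simp only [al]
      norm_num)
    (fun z z' h => by
      have hz2 := Nat.lt_succ_iff.mp z.2.2
      have hz2' := Nat.lt_succ_iff.mp z'.2.2
      have e1 : z.1 = z'.1 := by
        funext a
        apply Fin.ext
        rcases lt_trichotomy (z.1 a : ℕ) (z'.1 a : ℕ) with hlt | heq | hlt
        · exact (key1 _ _ a _ _ hlt hz2 hz2' h).elim
        · exact heq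
        · exact (key1 _ _ a _ _ hlt hz2' hz2 h.symm).elim
      have e2 : (z.2 : ℕ) = z'.2 := by
        rw [← e1] at h
        rcases lt_trichotomy (z.2 : ℕ) z'.2 with hlt | heq | hlt
        · exact (key2 _ _ _ hlt hz2' h).elim
        · exact heq
        · exact (key2 _ _ _ hlt hz2 h.symm).elim
      exact Prod.ext e1 (Fin.ext e2))
  simpa using hfin

/-- Lower bound of order `n ^ (2 d - 3)` in every dimension `d ≥ 3`. -/
theorem result (d : ℕ) (hd : 3 ≤ d) (n : ℕ) (hn : 4 * d - 6 ≤ n) :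
    n ^ (2 * d - 3) ≤ (4 * d - 6) ^ (2 * d - 3) * g d n := by
  obtain ⟨D, rfl⟩ : ∃ D, d = D + 3 := ⟨d - 3, by omega⟩
  have hpos : 0 < 2 * D + 3 := by omega
  obtain ⟨m, r, hm, hr, h⟩ : ∃ m r : ℕ, 2 ≤ m ∧ r < 2 * D + 3 ∧ n = (2 * D + 3) * m + r := by
    refine ⟨n / (2 * D + 3), n % (2 * D + 3), ?_, Nat.mod_lt _ hpos, ?_⟩
    · rw [Nat.le_div_iff_mul_le hpos]; omega
    · exact (Nat.div_add_mod n (2 * D + 3)).symm
  have h1 := main_count hm h
  have e1 : 2 * (D + 3) - 3 = 2 * (D + 1) + 1 := by omega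
  have e2 : 4 * (D + 3) - 6 = 2 * (2 * D + 3) := by omega
  rw [e1, e2]
  have h2 : n ≤ 2 * (2 * D + 3) * m := by
    rw [h]
    nlinarith
  calc n ^ (2 * (D + 1) + 1) ≤ (2 * (2 * D + 3) * m) ^ (2 * (D + 1) + 1) :=
        Nat.pow_le_pow_left h2 _
    _ = (2 * (2 * D + 3)) ^ (2 * (D + 1) + 1) * ((m ^ 2) ^ (D + 1) * m) := by
        rw [mul_pow, pow_succ m, pow_mul m 2 (D + 1)]
    _ ≤ (2 * (2 * D + 3)) ^ (2 * (D + 1) + 1) * ((m ^ 2 + 1) ^ (D + 1) * (m + 1)) := by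
        apply Nat.mul_le_mul_left
        exact Nat.mul_le_mul (Nat.pow_le_pow_left (Nat.le_succ _) _) (Nat.le_succ _)
    _ ≤ (2 * (2 * D + 3)) ^ (2 * (D + 1) + 1) * g (D + 3) n := Nat.mul_le_mul_left _ h1

end Pool.Agent.Results.MP_06d6be_co.LineOrders
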